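import Pool.Agent.R470.LYSystem

/-!
# Distributional chaos of type 3 without Li-Yorke pairs on a dendrite

There are a dendrite `D` and a continuous map `f : D → D` which has an uncountable DC3 set but no
Li-Yorke pair at all.  So both questions of the problem have a negative answer (`questions`).
-/

open Filter Topology

namespace Pool.Agent.Results.MP_5bdc9f_an.NoLiYorkePair

/-- A dendrite: a compact connected metric space that is locally connected and contains no subset
homeomorphic to a circle. -/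
def IsDendrite (X : Type) [MetricSpace X] : Prop :=
  CompactSpace X ∧ ConnectedSpace X ∧ LocallyConnectedSpace X ∧ ∀ C : Set X, IsEmpty (C ≃ₜ Circle)

/-- `(x, y)` is a Li-Yorke pair of `f`. -/
def IsLYPair {X : Type} [MetricSpace X] (f : X → X) (x y : X) : Prop :=
  x ≠ y ∧ liminf (fun k : ℕ => dist (f^[k] x) (f^[k] y)) atTop = 0 ∧
    0 < limsup (fun k : ℕ => dist (f^[k] x) (f^[k] y)) atTop

/-- An LY-scrambled set. -/
def IsLYScrambled {X : Type} [MetricSpace X] (f : X → X) (S : Set X) : Prop :=
  S.Nontrivial ∧ ∀ x ∈ S, ∀ y ∈ S, x ≠ y → IsLYPair f x y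

/-- `(1/n) #{0 ≤ k ≤ n : d(f^k x, f^k y) < δ}`. -/
noncomputable def freq {X : Type} [MetricSpace X] (f : X → X) (x y : X) (δ : ℝ) (n : ℕ) : ℝ :=
  (((Finset.range (n + 1)).filter (fun k => dist (f^[k] x) (f^[k] y) < δ)).card : ℝ) / n

/-- The lower distribution function. -/
noncomputable def Phi {X : Type} [MetricSpace X] (f : X → X) (x y : X) (δ : ℝ) : ℝ :=
  liminf (freq f x y δ) atTop

/-- The upper distribution function. -/
noncomputable def PhiStar {X : Type} [MetricSpace X] (f : X → X) (x y : X) (δ : ℝ) : ℝ :=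
  limsup (freq f x y δ) atTop

/-- `(x, y)` is a DC3 pair of `f`. -/
def IsDC3Pair {X : Type} [MetricSpace X] (f : X → X) (x y : X) : Prop :=
  x ≠ y ∧ ∃ a b : ℝ, 0 ≤ a ∧ a < b ∧ b ≤ Metric.diam (Set.univ : Set X) ∧
    ∀ δ ∈ Set.Ioo a b, Phi f x y δ < PhiStar f x y δ

/-- A DC3 set. -/
def IsDC3Set {X : Type} [MetricSpace X] (f : X → X) (S : Set X) : Prop :=
  ∀ x ∈ S, ∀ y ∈ S, x ≠ y → IsDC3Pair f x y

/-- Question 1 of the problem: on dendrites, a DC3 pair implies a Li-Yorke pair. -/
def Question1 : Prop := ∀ (X : Type) [MetricSpace X], IsDendrite X → ∀ f : X → X, Continuous f →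
  (∃ x y, IsDC3Pair f x y) → ∃ x y, IsLYPair f x y

/-- Question 2 of the problem: on dendrites, an uncountable DC3 set implies an uncountable
LY-scrambled set. -/
def Question2 : Prop := ∀ (X : Type) [MetricSpace X], IsDendrite X → ∀ f : X → X, Continuous f →
  (∃ S : Set X, ¬ S.Countable ∧ IsDC3Set f S) → ∃ S : Set X, ¬ S.Countable ∧ IsLYScrambled f S

section Proof

open Pool.Agent.R470.Dendrite Pool.Agent.R470.LY

attribute [local instance] PiNat.metricSpace

/-- the dendrite map -/
noncomputable abbrev F : Dend X → Dend X := ext T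

theorem noLY (p q : Dend X) : ¬ IsLYPair F p q := by
  rintro ⟨-, hinf, hsup⟩
  have hbdd : ∀ n, dist (F^[n] p) (F^[n] q) ≤ 2 := by
    intro n
    obtain ⟨x, r, hr0, hr1, e1⟩ := exists_P (F^[n] p)
    obtain ⟨x', r', hr0', hr1', e2⟩ := exists_P (F^[n] q)
    rw [e1, e2, dist_P hr0 hr1 hr0' hr1']
    have : max (max r r') (dist x x') ≤ 1 := max_le (max_le hr1 hr1') (dist_le_one _ _)
    linarith
  have hlow : ∀ c : ℝ, 0 < c → (∀ᶠ n in atTop, c ≤ dist (F^[n] p) (F^[n] q)) → False := by
    intro c hc h
    have : c ≤ liminf (fun k : ℕ => dist (F^[k] p) (F^[k] q)) atTop :=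
      le_liminf_of_le (isBoundedUnder_of ⟨2, hbdd⟩).isCoboundedUnder_ge h
    rw [hinf] at this
    linarith
  have hzero : (∀ᶠ n in atTop, dist (F^[n] p) (F^[n] q) = 0) → False := by
    intro h
    have : limsup (fun k : ℕ => dist (F^[k] p) (F^[k] q)) atTop ≤ 0 :=
      limsup_le_of_le (isBoundedUnder_of ⟨0, fun n => dist_nonneg⟩ :
        IsBoundedUnder (· ≥ ·) atTop
          (fun k : ℕ => dist (F^[k] p) (F^[k] q))).isCoboundedUnder_le (h.mono fun n hn => hn.le)
    linarith
  rcases pair_cases dist_le_one dist_T p q with ⟨x, y, rfl, rfl⟩ | h | h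
  · rcases trichotomy x y with ⟨c, hc, h⟩ | h
    · refine hlow (2 * c) (by linarith) ?_
      filter_upwards [h] with n hn
      rw [dist_iter_E dist_le_one dist_T]
      linarith
    · refine hzero ?_
      filter_upwards [h] with n hn
      rw [dist_iter_E dist_le_one dist_T, hn, mul_zero]
  · exact hlow 1 one_pos (h.mono fun n hn => hn.ge)
  · exact hzero h

theorem two_le_diam : 2 ≤ Metric.diam (Set.univ : Set (Dend X)) := by
  have hd : dist (E (pt 0)) (E (pt 1)) = 2 := by
    rw [dist_E]
    have := dist_iter_pt 0 1 0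
    simp only [Function.iterate_zero, id_eq] at this
    rw [this, seq_dist_eq_one (x := (0 : ℕ → ZMod 2)) (y := 1) (by simp),
      max_eq_left (seq_dist_le_one _ _)]
    norm_num
  have hc : CompactSpace (Dend X) := compactSpace_dend
  rw [← hd]
  exact Metric.dist_le_diam_of_mem isCompact_univ.isBounded trivial trivial

theorem dc3 {a b : ℕ → ZMod 2} (h0 : a 0 = b 0) (hab : ∃ᶠ j in atTop, a j ≠ b j) :
    IsDC3Pair F (E (pt a)) (E (pt b)) := by
  refine ⟨?_, 1, 2, by norm_num, by norm_num, two_le_diam, ?_⟩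
  · intro he
    have hd := dist_E (pt a) (pt b)
    rw [he, dist_self] at hd
    have := dist_iter_pt a b 0
    simp only [Function.iterate_zero, id_eq] at this
    have hne : a ≠ b := by
      obtain ⟨j, -, hj⟩ := frequently_atTop.1 hab 0
      exact fun h => hj (by rw [h])
    have hpos : 0 < dist a b := dist_pos.2 hne
    have : dist a b ≤ dist (pt a) (pt b) := by rw [this]; exact le_max_left _ _
    linarith
  · intro δ hδ
    have hfreq : freq F (E (pt a)) (E (pt b)) δ = u (fun n => Y a n = Y b n) := by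
      funext n
      unfold freq u
      congr 2
      congr 1
      apply Finset.filter_congr
      intro k _
      rw [dist_iter_E dist_le_one dist_T]
      exact lt_iff h0 hδ.1 hδ.2 k
    obtain ⟨e1, e2⟩ := dens hab
    unfold Phi PhiStar
    rw [hfreq]
    linarith

theorem example_holds : ∃ (X : Type) (_ : MetricSpace X) (f : X → X), IsDendrite X ∧ Continuous f ∧
    (∃ S : Set X, ¬ S.Countable ∧ IsDC3Set f S) ∧ ∀ x y, ¬ IsLYPair f x y := by
  have hdend := isDendrite (X := X) dist_le_one
  refine ⟨Dend X, inferInstance, F, ⟨hdend.compact, hdend.connected, hdend.locallyConnected,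
    hdend.noCircle⟩, continuous_ext dist_le_one dist_T, ⟨Set.range (fun s : Set ℕ => E (pt (par s))), ?_, ?_⟩,
    noLY⟩
  · intro hcount
    have hinj : Function.Injective (fun s : Set ℕ => E (pt (par s))) := by
      intro s t hst
      by_contra hne
      exact (dc3 ((par_zero s).trans (par_zero t).symm) (par_ne hne)).1 hst
    have h2 : Countable (Set ℕ) := by
      have := hcount.to_subtype
      exact (Equiv.ofInjective _ hinj).countable_iff.2 this
    exact not_countable_iff.2 uncountable_set_nat h2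
  · rintro _ ⟨s, rfl⟩ _ ⟨t, rfl⟩ hne
    have hst : s ≠ t := fun h => hne (by rw [h])
    exact dc3 ((par_zero s).trans (par_zero t).symm) (par_ne hst)

end Proof

/-- There are a dendrite `X` and a continuous map `f : X → X` such that `f` has an uncountable DC3
set but no Li-Yorke pair. -/
theorem result : ∃ (X : Type) (_ : MetricSpace X) (f : X → X), IsDendrite X ∧ Continuous f ∧
    (∃ S : Set X, ¬ S.Countable ∧ IsDC3Set f S) ∧ ∀ x y, ¬ IsLYPair f x y :=
  example_holds

/-- Both questions have a negative answer. -/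
theorem questions : ¬ Question1 ∧ ¬ Question2 := by
  constructor
  · intro hQ
    obtain ⟨X, inst, f, hX, hf, ⟨S, hS, hdc⟩, hLY⟩ := example_holds
    have hnt : S.Nontrivial := by
      rw [← Set.not_subsingleton_iff]
      exact fun h => hS h.countable
    obtain ⟨x, hx, y, hy, hxy⟩ := hnt
    obtain ⟨x', y', h⟩ := hQ X hX f hf ⟨x, y, hdc x hx y hy hxy⟩
    exact hLY x' y' h
  · intro hQ
    obtain ⟨X, inst, f, hX, hf, ⟨S, hS, hdc⟩, hLY⟩ := example_holds
    obtain ⟨S', -, ⟨x, hx, y, hy, hxy⟩, h⟩ := hQ X hX f hf ⟨S, hS, hdc⟩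
    exact hLY x y (h x hx y hy hxy)

end Pool.Agent.Results.MP_5bdc9f_an.NoLiYorkePair
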